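import Pool.Agent.N852.GR.Stm

/-!
Project GR, part BAD: the sum over the bad vectors.
-/

namespace Pool.Agent.N713.GR

open Pool.Agent.N852.GR
open scoped Classical
open NumberField Module Matrix Finset

variable {F : Type} [Field F] [NumberField F]

theorem nap_le (w : InfinitePlace F) (x : EE F) : mixedEmbedding.normAtPlace w x ≤ ‖x‖ := by
  rw [mixedEmbedding.norm_eq_sup'_normAtPlace]
  exact Finset.le_sup' (fun w => mixedEmbedding.normAtPlace w x) (mem_univ w)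

theorem nap_ge (w : InfinitePlace F) (x y : EE F) :
    mixedEmbedding.normAtPlace w x - ‖x - y‖ ≤ mixedEmbedding.normAtPlace w y := by
  have h1 : mixedEmbedding.normAtPlace w x ≤
      mixedEmbedding.normAtPlace w (x - y) + mixedEmbedding.normAtPlace w y := by
    have := mixedEmbedding.normAtPlace_add_le w (x - y) y
    rwa [sub_add_cancel] at this
  have h2 := nap_le w (x - y)
  linarith

theorem fin_io (n : ℕ) (B : ℝ) : {x : Fin n → 𝓞 F | ‖io x‖ ≤ B}.Finite := by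
  have h1 : {x : F | IsIntegral ℤ x ∧ ∀ φ : F →+* ℂ, ‖φ x‖ ≤ B}.Finite :=
    Embeddings.finite_of_norm_le F ℂ B
  have h2 : {x : 𝓞 F | ∀ φ : F →+* ℂ, ‖φ (x : F)‖ ≤ B}.Finite := by
    refine Set.Finite.of_finite_image (f := fun x : 𝓞 F => (x : F)) (h1.subset ?_) ?_
    · rintro _ ⟨x, hx, rfl⟩
      exact ⟨x.isIntegral_coe, hx⟩
    · intro a _ b _ hab
      exact RingOfIntegers.coe_injective hab
  refine (Set.Finite.pi' fun _ : Fin n => h2).subset ?_
  intro x hx i φ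
  have h3 : ‖mixedEmbedding F (x i : F)‖ ≤ B := (norm_le_pi_norm (io x) i).trans hx
  have h4 := (nap_le (InfinitePlace.mk φ) (mixedEmbedding F (x i : F))).trans h3
  rwa [mixedEmbedding.normAtPlace_apply, InfinitePlace.apply] at h4

variable {n k : ℕ}

theorem AS_le (A : Fin k → Matrix (Fin n) (Fin n) (𝓞 F)) :
    ∃ K : ℝ, 0 ≤ K ∧ ∀ (s : Fin k → EE F) (z : Fin n → EE F), ‖AS A s z‖ ≤ K * ‖s‖ * ‖z‖ := by
  refine ⟨∑ i, ∑ j, ∑ l, ‖mixedEmbedding F (A i j l : F)‖, by positivity, fun s z => ?_⟩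
  rw [pi_norm_le_iff_of_nonneg (by positivity)]
  intro j
  have h0 : (AS A s z) j = ∑ i, s i * ∑ l, mixedEmbedding F (A i j l : F) * z l := rfl
  rw [h0]
  calc ‖∑ i, s i * ∑ l, mixedEmbedding F (A i j l : F) * z l‖
      ≤ ∑ i, ‖s i * ∑ l, mixedEmbedding F (A i j l : F) * z l‖ := norm_sum_le _ _
    _ ≤ ∑ i, ‖s‖ * ∑ l, ‖mixedEmbedding F (A i j l : F)‖ * ‖z‖ := by
        refine sum_le_sum fun i _ => ?_
        refine (norm_mul_le _ _).trans ?_
        refine mul_le_mul (norm_le_pi_norm s i) ?_ (norm_nonneg _) (norm_nonneg _)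
        refine (norm_sum_le _ _).trans (sum_le_sum fun l _ => ?_)
        refine (norm_mul_le _ _).trans ?_
        exact mul_le_mul_of_nonneg_left (norm_le_pi_norm z l) (norm_nonneg _)
    _ = (∑ i, ∑ l, ‖mixedEmbedding F (A i j l : F)‖) * ‖s‖ * ‖z‖ := by
        rw [sum_mul, sum_mul]
        refine sum_congr rfl fun i _ => ?_
        rw [← sum_mul]
        ring
    _ ≤ (∑ i, ∑ j, ∑ l, ‖mixedEmbedding F (A i j l : F)‖) * ‖s‖ * ‖z‖ := by
        refine mul_le_mul_of_nonneg_right (mul_le_mul_of_nonneg_right ?_ (norm_nonneg _))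
          (norm_nonneg _)
        refine sum_le_sum fun i _ => ?_
        exact single_le_sum (f := fun j => ∑ l, ‖mixedEmbedding F (A i j l : F)‖)
          (fun j _ => by positivity) (mem_univ j)

omit [NumberField F] in
theorem AS_sub (A : Fin k → Matrix (Fin n) (Fin n) (𝓞 F)) (s t : Fin k → EE F)
    (z : Fin n → EE F) : AS A (s - t) z = AS A s z - AS A t z := by
  funext j
  have h0 : ∀ s : Fin k → EE F, (AS A s z) j =
    ∑ i, s i * ∑ l, mixedEmbedding F (A i j l : F) * z l := fun _ => rfl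
  rw [Pi.sub_apply, h0, h0, h0, ← sum_sub_distrib]
  refine sum_congr rfl fun i _ => ?_
  rw [Pi.sub_apply, sub_mul]

omit [NumberField F] in
theorem AS_zero (A : Fin k → Matrix (Fin n) (Fin n) (𝓞 F)) (b : Fin n → 𝓞 F)
    (s : Fin k → EE F) (hs : s ∈ RR A b) : AS A s (io b) = 0 := by
  funext j
  have h0 : (AS A s (io b)) j = ∑ i, s i * ∑ l, mixedEmbedding F (A i j l : F) * io b l := rfl
  have h1 : ∑ i, s i * mixedEmbedding F (dr A b i j : F) = 0 := hs j
  rw [h0, Pi.zero_apply, ← h1]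
  refine sum_congr rfl fun i _ => ?_
  congr 1
  have h2 : (dr A b i j : F) = ∑ l, (A i j l : F) * (b l : F) := by
    have h4 : ∀ f : Fin n → 𝓞 F, algebraMap (𝓞 F) F (∑ l, f l * b l) =
        ∑ l, algebraMap (𝓞 F) F (f l) * algebraMap (𝓞 F) F (b l) := by
      intro f
      rw [map_sum]
      exact sum_congr rfl fun l _ => map_mul _ _ _
    exact h4 (A i j)
  rw [h2, map_sum]
  exact sum_congr rfl fun l _ => (map_mul _ _ _).symm

theorem fr_E : finrank ℝ (EE F) = finrank ℚ F := mixedEmbedding.finrank F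

theorem badP (F : Type) [Field F] [NumberField F] (hD : DimP F) (hT : TrkP F) (hC : CelP)
    (hN : CntP F) (hR : RnkP F) (hP : PbP F) : BadP F := by
  intro n k R A hRC hRn
  obtain ⟨K₁, hK₁, hAS⟩ := AS_le A
  obtain ⟨c, hc, hrnk⟩ := hR n k R A hRC
  obtain ⟨C₁, hC₁, hcel⟩ := hC (Fin k → EE F) 3
  obtain ⟨C₂, hC₂, hcnt⟩ := hN n (finrank ℚ F * R) c (5 * K₁) hc (by positivity)
  refine ⟨C₁ * C₂, one_le_mul_of_one_le_of_one_le hC₁ hC₂, fun μ hμ Z hZ => ?_⟩
  have hμ0 : (0 : ℝ) < μ := by linarith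
  have hμ1 : 1 / μ ≤ 1 := by rw [div_le_one hμ0]; exact hμ
  have hp0 : ∀ b : Fin n → 𝓞 F, ¬ Gd A b → ∃ p ∈ RR A b, ‖p‖ ≤ 3 ∧
      ∀ w : InfinitePlace F, ∃ i, mixedEmbedding.normAtPlace w (p i) = 3 :=
    fun b hb => hP n k A b hb
  choose! p hpR hp3 hpw using hp0
  have hdim : ∀ b : Fin n → 𝓞 F, finrank ℝ (RR A b) = finrank ℚ F * (k - rk (dr A b)) := by
    intro b
    rw [hT n k (dr A b)]
    exact hD k (Fin n) _
  have hW : finrank ℝ (Fin k → EE F) = finrank ℚ F * k := by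
    rw [finrank_pi_fintype, sum_const, card_univ, Fintype.card_fin, smul_eq_mul, fr_E, mul_comm]
  have hmain := hcel (Fin n → 𝓞 F) Z (fun b => RR A b) p μ
    (C₂ * μ ^ (finrank ℚ F * n - finrank ℚ F * R)) hμ (by positivity)
    (fun b hb => ⟨hpR b (hZ b hb).2, hp3 b (hZ b hb).2⟩) ?_
  · calc ∑ b ∈ Z, μ ^ (finrank ℚ F * (k - rk (dr A b)))
        = ∑ b ∈ Z, μ ^ finrank ℝ (RR A b) := sum_congr rfl fun b _ => by rw [hdim]
      _ ≤ C₁ * μ ^ finrank ℝ (Fin k → EE F) *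
          (C₂ * μ ^ (finrank ℚ F * n - finrank ℚ F * R)) := hmain
      _ = C₁ * C₂ * (μ ^ (finrank ℚ F * k) * μ ^ (finrank ℚ F * n - finrank ℚ F * R)) := by
          rw [hW]; ring
      _ = C₁ * C₂ * μ ^ (finrank ℚ F * (k + n - R)) := by
          rw [← pow_add]
          congr 2
          have h1 : finrank ℚ F * R ≤ finrank ℚ F * n := Nat.mul_le_mul_left _ hRn
          have h2 : k + n - R = k + (n - R) := by omega
          rw [h2, mul_add, Nat.mul_sub]
  · intro s₀ Y hY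
    rcases Y.eq_empty_or_nonempty with rfl | ⟨b₀, hb₀⟩
    · rw [card_empty, Nat.cast_zero]
      positivity
    obtain ⟨hb₀Z, s, hs, hs1, hs2⟩ := hY b₀ hb₀
    have hs2' : ‖s - s₀‖ ≤ 1 := hs2.trans hμ1
    have hb₀g := (hZ b₀ hb₀Z).2
    have h5 : ‖p b₀ - s₀‖ ≤ 2 := by
      have h6 : p b₀ - s₀ = (s - s₀) - (s - p b₀) := by abel
      rw [h6]
      have := norm_sub_le (s - s₀) (s - p b₀)
      linarith
    have hs₀5 : ‖s₀‖ ≤ 5 := by
      have h6 : s₀ = p b₀ - (p b₀ - s₀) := by abel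
      rw [h6]
      have := norm_sub_le (p b₀) (p b₀ - s₀)
      have := hp3 b₀ hb₀g
      linarith
    have hs₀w : ∀ w : InfinitePlace F, ∃ i, 1 ≤ mixedEmbedding.normAtPlace w (s₀ i) := by
      intro w
      obtain ⟨i, hi⟩ := hpw b₀ hb₀g w
      refine ⟨i, ?_⟩
      have h7 := nap_ge w (p b₀ i) (s₀ i)
      have h8 : ‖p b₀ i - s₀ i‖ ≤ 2 := (norm_le_pi_norm (p b₀ - s₀) i).trans h5
      linarith
    obtain ⟨P, hPd, hPc⟩ := hrnk s₀ hs₀5 hs₀w
    have hB : ∀ z, ‖AS A s₀ z‖ ≤ 5 * K₁ * ‖z‖ := by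
      intro z
      refine (hAS s₀ z).trans ?_
      refine mul_le_mul_of_nonneg_right ?_ (norm_nonneg _)
      nlinarith
    refine le_trans ?_ (hcnt (AS A s₀) P hPd hB hPc μ hμ)
    rw [Nat.cast_le, ← Set.ncard_coe_finset]
    refine Set.ncard_le_ncard ?_ ((fin_io n μ).subset fun x hx => hx.1)
    intro b hb
    obtain ⟨hbZ, t, ht, -, ht2⟩ := hY b (mem_coe.1 hb)
    have hbμ := (hZ b hbZ).1
    refine ⟨hbμ, ?_⟩
    have h9 : AS A s₀ (io b) = AS A (s₀ - t) (io b) := by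
      rw [AS_sub, AS_zero A b t ht, sub_zero]
    rw [h9]
    refine (hAS (s₀ - t) (io b)).trans ?_
    have h10 : ‖s₀ - t‖ ≤ 1 / μ := by rw [norm_sub_rev]; exact ht2
    calc K₁ * ‖s₀ - t‖ * ‖io b‖ ≤ K₁ * (1 / μ) * μ := by gcongr
      _ = K₁ := by field_simp
      _ ≤ 5 * K₁ := by linarith

end Pool.Agent.N713.GR
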